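import Mathlib
import Pool.Agent.H43.Benzel.Mid

/-!
# All perfect matchings of the strip graph have the same sign

`abs_det_kmat` : the determinant of the Kasteleyn matrix counts the perfect matchings.

The cells of both colours are ordered lexicographically.  In a matching, if the cell `x` of `R`
is matched upwards then every smaller cell is matched to a smaller cell of `Q`; if it is matched
downwards then every larger cell is matched to a larger cell.  Hence the sign of the permutation
is the product of `(-1)^(i + π i)` over the cells matched downwards.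
-/

open Finset Equiv

namespace Pool.Agent.H43.Benzel

/-- The sign of a permutation all of whose points are lower records or upper records. -/
lemma sign_of_records {N : ℕ} (π : Perm (Fin N)) (up : Fin N → Prop) [DecidablePred up]
    (h1 : ∀ i, up i → ∀ j, j < i → π j < π i)
    (h2 : ∀ i, ¬ up i → ∀ j, i < j → π i < π j) :
    (Perm.sign π : ℤ) = ∏ i, (if up i then (1 : ℤ) else (-1) ^ ((i : ℕ) + (π i : ℕ))) := by
  rw [Equiv.Perm.sign_eq_prod_prod_Iio]
  push_cast
  refine Finset.prod_congr rfl fun i _ => ?_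
  by_cases hi : up i
  · rw [if_pos hi]
    refine Finset.prod_eq_one fun j hj => ?_
    rw [Finset.mem_Iio] at hj
    simp [h1 i hi j hj]
  · rw [if_neg hi]
    have e1 : ∀ j ∈ Finset.Iio i, ((if π j < π i then (1 : ℤˣ) else -1 : ℤˣ) : ℤ)
        = if π i < π j then (-1 : ℤ) else 1 := by
      intro j hj
      rw [Finset.mem_Iio] at hj
      have hne : π j ≠ π i := fun h => (ne_of_lt hj) (π.injective h)
      rcases lt_or_gt_of_ne hne with h | h
      · simp [h, not_lt.mpr h.le]
      · simp [h, not_lt.mpr h.le]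
    rw [Finset.prod_congr rfl e1, Finset.prod_ite, Finset.prod_const_one, mul_one,
      Finset.prod_const]
    -- count
    have c1 : ((Finset.Iio i).filter fun j => π i < π j).card
        + ((Finset.Iio i).filter fun j => ¬ π i < π j).card = (i : ℕ) := by
      rw [Finset.card_filter_add_card_filter_not, Fin.card_Iio]
    have c2 : ((Finset.Iio i).filter fun j => ¬ π i < π j).card = (π i : ℕ) := by
      have : ((Finset.Iio i).filter fun j => ¬ π i < π j).map π.toEmbedding
          = Finset.Iio (π i) := by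
        ext y
        simp only [Finset.mem_map, Finset.mem_filter, Finset.mem_Iio, Equiv.coe_toEmbedding]
        constructor
        · rintro ⟨j, ⟨hj, hj'⟩, rfl⟩
          have hne : π j ≠ π i := fun h => (ne_of_lt hj) (π.injective h)
          exact lt_of_le_of_ne (not_lt.mp hj') hne
        · intro hy
          refine ⟨π.symm y, ⟨?_, ?_⟩, by simp⟩
          · by_contra hcon
            rcases lt_or_eq_of_le (not_lt.mp hcon) with h | h
            · have := h2 i hi _ h
              simp at this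
              exact absurd hy (not_lt.mpr this.le)
            · rw [h] at hy
              simp at hy
          · simp only [Equiv.apply_symm_apply]
            exact not_lt.mpr hy.le
      rw [← Fin.card_Iio (π i), ← this, Finset.card_map]
    have c3 : (i : ℕ) + (π i : ℕ)
        = ((Finset.Iio i).filter fun j => π i < π j).card + 2 * (π i : ℕ) := by omega
    rw [c3, pow_add, pow_mul]
    simp

/-! ### Lexicographic positions -/

/-- lexicographic position of the cell `x` when the row `k` has `w k` cells -/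
def lpos (w : ℕ → ℕ) (x : ℕ × ℕ) : ℕ := ∑ s ∈ range x.1, w s + x.2

lemma lpos_lt_iff (w : ℕ → ℕ) {x y : ℕ × ℕ} (hx : x.2 < w x.1) (hy : y.2 < w y.1) :
    lpos w x < lpos w y ↔ x.1 < y.1 ∨ (x.1 = y.1 ∧ x.2 < y.2) := by
  have key : ∀ {x y : ℕ × ℕ}, x.2 < w x.1 → x.1 < y.1 → lpos w x < lpos w y := by
    intro x y hx h
    unfold lpos
    have h1 : ∑ s ∈ range (x.1 + 1), w s ≤ ∑ s ∈ range y.1, w s :=
      Finset.sum_le_sum_of_subset (Finset.range_subset_range.mpr h)
    rw [Finset.sum_range_succ] at h1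
    omega
  constructor
  · intro h
    rcases lt_trichotomy x.1 y.1 with h1 | h1 | h1
    · exact Or.inl h1
    · refine Or.inr ⟨h1, ?_⟩
      unfold lpos at h
      rw [h1] at h
      omega
    · exact absurd h (not_lt.mpr (key hy h1).le)
  · rintro (h | ⟨h1, h2⟩)
    · exact key hx h
    · unfold lpos
      rw [h1]
      omega

/-- cells with `m` rows, the row `k` having `w k` cells, are numbered by their position -/
noncomputable def cellEquiv (w : ℕ → ℕ) (m : ℕ) :
    {x : ℕ × ℕ // x.1 < m ∧ x.2 < w x.1} ≃ Fin (∑ s : Fin m, w s) :=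
  ({ toFun := fun x => ⟨⟨x.1.1, x.2.1⟩, ⟨x.1.2, x.2.2⟩⟩
     invFun := fun x => ⟨(x.1, x.2), x.1.2, x.2.2⟩
     left_inv := fun _ => rfl
     right_inv := fun _ => rfl } :
    {x : ℕ × ℕ // x.1 < m ∧ x.2 < w x.1} ≃ (s : Fin m) × Fin (w s)).trans finSigmaFinEquiv

lemma cellEquiv_val (w : ℕ → ℕ) (m : ℕ) (x : {x : ℕ × ℕ // x.1 < m ∧ x.2 < w x.1}) :
    (cellEquiv w m x : ℕ) = lpos w x.1 := by
  unfold cellEquiv lpos
  rw [Equiv.trans_apply, finSigmaFinEquiv_apply]
  simp only [Equiv.coe_fn_mk, Fin.val_castLE]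
  rw [Finset.sum_range]

/-- numbering of the cells of `R` -/
noncomputable def eR (n : ℕ) : RCell n ≃ Fin (∑ s : Fin (2 * n + 1), rs n s) :=
  (Equiv.subtypeEquivRight (fun _ => by rw [Nat.lt_succ_iff])).trans
    (cellEquiv (rs n) (2 * n + 1))

/-- numbering of the cells of `Q` -/
noncomputable def eQ (n : ℕ) : QCell n ≃ Fin (∑ s : Fin (2 * n), qs n s) :=
  cellEquiv (qs n) (2 * n)

lemma eR_val (n : ℕ) (x : RCell n) : (eR n x : ℕ) = lpos (rs n) x.1 := by
  have h := x.2.1
  exact cellEquiv_val (rs n) (2 * n + 1) ⟨x.1, by omega, x.2.2⟩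

lemma eQ_val (n : ℕ) (x : QCell n) : (eQ n x : ℕ) = lpos (qs n) x.1 :=
  cellEquiv_val _ _ _

/-- level signs -/
def lsgn (n : ℕ) : ℕ → ℤ
  | 0 => 1
  | t + 1 => lsgn n t * (-1) ^ (∑ s ∈ range (t + 1), rs n s + ∑ s ∈ range t, qs n s)

lemma lsgn_succ (n t : ℕ) : lsgn n (t + 1)
    = lsgn n t * (-1) ^ (∑ s ∈ range (t + 1), rs n s + ∑ s ∈ range t, qs n s) := rfl

lemma lsgn_sq (n t : ℕ) : lsgn n t * lsgn n t = 1 := by
  induction t with
  | zero => simp [lsgn]
  | succ t ih =>
    have h : ∀ k : ℕ, ((-1 : ℤ) ^ k) * (-1) ^ k = 1 := by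
      intro k; rw [← mul_pow]; simp
    unfold lsgn
    rw [mul_mul_mul_comm, ih, h, one_mul]

/-- the common value of `sign * weight` -/
noncomputable def csgn (n : ℕ) : ℤ :=
  (∏ x : RCell n, lsgn n x.1.1) * ∏ y : QCell n, lsgn n y.1.1

lemma csgn_sq (n : ℕ) : csgn n * csgn n = 1 := by
  unfold csgn
  rw [mul_mul_mul_comm, ← Finset.prod_mul_distrib, ← Finset.prod_mul_distrib]
  simp [lsgn_sq]

/-- the main computation: all matchings have the same signed weight -/
lemma sign_mul_weight (n : ℕ) (hN : ∑ s : Fin (2 * n), qs n s = ∑ s : Fin (2 * n + 1), rs n s)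
    (σ : RCell n ≃ QCell n) (hσ : ∀ x, AdjRQ x.1 (σ x).1) :
    (Perm.sign (((eR n).symm.trans σ).trans ((eQ n).trans (finCongr hN))) : ℤ)
      * ∏ x : RCell n, kw x.1 (σ x).1 = csgn n := by
  classical
  set π : Perm (Fin (∑ s : Fin (2 * n + 1), rs n s)) :=
    ((eR n).symm.trans σ).trans ((eQ n).trans (finCongr hN)) with hπ
  have hπv : ∀ x : RCell n, (π (eR n x) : ℕ) = lpos (qs n) (σ x).1 := by
    intro x
    rw [hπ]
    simp only [Equiv.trans_apply, Equiv.symm_apply_apply, finCongr_apply, Fin.val_cast]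
    rw [eQ_val]
  have hadj : ∀ x : RCell n, ((σ x).1.1 = x.1.1 ∨ (σ x).1.1 + 1 = x.1.1) ∧
      ((σ x).1.2 = x.1.2 ∨ (σ x).1.2 = x.1.2 + 1) := fun x => hσ x
  -- order comparison for images
  have hlt : ∀ x y : RCell n, ((σ x).1.1 < (σ y).1.1 ∨
      ((σ x).1.1 = (σ y).1.1 ∧ (σ x).1.2 < (σ y).1.2)) → π (eR n x) < π (eR n y) := by
    intro x y h
    rw [Fin.lt_def, hπv, hπv]
    exact (lpos_lt_iff (qs n) (σ x).2.2 (σ y).2.2).mpr h
  have hlt' : ∀ x y : RCell n, eR n x < eR n y → (x.1.1 < y.1.1 ∨
      (x.1.1 = y.1.1 ∧ x.1.2 < y.1.2)) := by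
    intro x y h
    rw [Fin.lt_def, eR_val, eR_val] at h
    exact (lpos_lt_iff (rs n) x.2.2 y.2.2).mp h
  have hne : ∀ x y : RCell n, x ≠ y → (σ x).1.1 = (σ y).1.1 → (σ x).1.2 ≠ (σ y).1.2 := by
    intro x y hxy h1 h2
    exact hxy (σ.injective (Subtype.ext (Prod.ext h1 h2)))
  have hs := sign_of_records π (fun i => (σ ((eR n).symm i)).1.1 = ((eR n).symm i).1.1)
    (by
      intro i hi j hij
      obtain ⟨x, rfl⟩ := (eR n).surjective i
      obtain ⟨y, rfl⟩ := (eR n).surjective j
      simp only [Equiv.symm_apply_apply] at hi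
      have h1 := hlt' _ _ hij
      have h2 := hadj x
      have h3 := hadj y
      apply hlt
      have h4 := hne y x (by rintro rfl; exact lt_irrefl _ hij)
      omega)
    (by
      intro i hi j hij
      obtain ⟨x, rfl⟩ := (eR n).surjective i
      obtain ⟨y, rfl⟩ := (eR n).surjective j
      simp only [Equiv.symm_apply_apply] at hi
      have h1 := hlt' _ _ hij
      have h2 := hadj x
      have h3 := hadj y
      apply hlt
      have h4 := hne x y (by rintro rfl; exact lt_irrefl _ hij)
      omega)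
  rw [hs]
  rw [← Equiv.prod_comp (eR n)]
  simp only [Equiv.symm_apply_apply]
  rw [← Finset.prod_mul_distrib]
  have hterm : ∀ x : RCell n,
      (if (σ x).1.1 = x.1.1 then (1 : ℤ) else (-1) ^ (((eR n x : Fin _) : ℕ) + (π (eR n x) : ℕ)))
        * kw x.1 (σ x).1 = lsgn n x.1.1 * lsgn n (σ x).1.1 := by
    intro x
    rw [hπv, eR_val]
    obtain ⟨h1, h2⟩ := hadj x
    by_cases h : (σ x).1.1 = x.1.1
    · rw [if_pos h, h, lsgn_sq, one_mul]
      unfold kw
      rw [if_pos h, if_pos h2]
    · rw [if_neg h]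
      have h3 : (σ x).1.1 + 1 = x.1.1 := by tauto
      have hk : kw x.1 (σ x).1 = (-1) ^ (x.1.2 + (σ x).1.2) := by
        unfold kw
        rw [if_neg h, if_pos h3]
        rcases h2 with h2 | h2
        · rw [if_pos h2, h2, ← two_mul, pow_mul]; simp
        · rw [if_neg (by omega), if_pos h2, h2]
          have : x.1.2 + (x.1.2 + 1) = 2 * x.1.2 + 1 := by ring
          rw [this, pow_add, pow_mul]; simp
      rw [hk, ← h3]
      unfold lpos
      rw [← h3, lsgn_succ, mul_right_comm, lsgn_sq, one_mul, ← pow_add]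
      have e1 : ∑ s ∈ range ((σ x).1.1 + 1), rs n s + x.1.2
          + (∑ s ∈ range (σ x).1.1, qs n s + (σ x).1.2) + (x.1.2 + (σ x).1.2)
          = (∑ s ∈ range ((σ x).1.1 + 1), rs n s + ∑ s ∈ range (σ x).1.1, qs n s)
            + 2 * (x.1.2 + (σ x).1.2) := by ring
      rw [e1, pow_add _ _ (2 * _), pow_mul (-1 : ℤ) 2]
      simp
  rw [Finset.prod_congr rfl fun x _ => hterm x, Finset.prod_mul_distrib]
  unfold csgn
  congr 1
  exact Equiv.prod_comp σ (fun y => lsgn n y.1.1)

lemma kw_eq_zero {x y : ℕ × ℕ} (h : ¬ AdjRQ x y) : kw x y = 0 := by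
  unfold AdjRQ at h
  unfold kw
  split_ifs <;> first | rfl | (exfalso; omega)

theorem abs_det_kmat (n : ℕ) (e : RCell n ≃ QCell n) :
    |(kmat n e).det| = (M n : ℤ) := by
  classical
  have hN : ∑ s : Fin (2 * n), qs n s = ∑ s : Fin (2 * n + 1), rs n s := by
    apply Fin.equiv_iff_eq.mp
    exact ⟨(eQ n).symm.trans (e.symm.trans (eR n))⟩
  set F : Equiv (Fin (∑ s : Fin (2 * n + 1), rs n s)) (Fin (∑ s : Fin (2 * n + 1), rs n s)) :=
    ((eR n).symm.trans e).trans ((eQ n).trans (finCongr hN)) with hF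
  have hterm : ∀ τ : Perm (RCell n), (Perm.sign τ : ℤ) * ∏ x, (kmat n e).transpose (τ x) x
      = if (∀ x, AdjRQ x.1 (e (τ x)).1) then (Perm.sign F : ℤ) * csgn n else 0 := by
    intro τ
    simp only [Matrix.transpose_apply, kmat, Matrix.of_apply]
    split_ifs with h
    · have h1 := sign_mul_weight n hN (τ.trans e) h
      have h2 : ((eR n).symm.trans (τ.trans e)).trans ((eQ n).trans (finCongr hN))
          = ((eR n).symm.trans (τ.trans (eR n))).trans F := by
        ext i
        simp [hF]
      rw [h2] at h1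
      have h3 : Perm.sign (((eR n).symm.trans (τ.trans (eR n))).trans F)
          = Perm.sign F * Perm.sign τ := by
        have := Equiv.Perm.sign_trans ((eR n).symm.trans (τ.trans (eR n)) : Perm _) F
        rw [this, ← Equiv.trans_assoc, Equiv.Perm.sign_symm_trans_trans]
      rw [h3] at h1
      push_cast at h1
      rw [← h1]
      have h4 : (Perm.sign F : ℤ) * (Perm.sign F : ℤ) = 1 := by
        rw [← Units.val_mul, Int.units_mul_self]
        rfl
      simp only [Equiv.trans_apply]
      linear_combination (-(Perm.sign τ : ℤ) * ∏ x, kw x.1 (e (τ x)).1) * h4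
    · push Not at h
      obtain ⟨x, hx⟩ := h
      rw [Finset.prod_eq_zero (Finset.mem_univ x) (kw_eq_zero hx), mul_zero]
  rw [← Matrix.det_transpose, Matrix.det_apply']
  simp only [Int.cast_id]
  rw [Finset.sum_congr rfl fun τ _ => hterm τ, Finset.sum_ite, Finset.sum_const_zero, add_zero, Finset.sum_const, nsmul_eq_mul]
  have hu : |(Perm.sign F : ℤ) * csgn n| = 1 := by
    rw [abs_mul]
    have h4 : |(Perm.sign F : ℤ)| = 1 := by
      rcases Int.units_eq_one_or (Perm.sign F) with h | h <;> rw [h] <;> simp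
    have h5 : |csgn n| = 1 := by
      have := csgn_sq n
      rw [← abs_mul_abs_self] at this
      nlinarith [abs_nonneg (csgn n)]
    rw [h4, h5, one_mul]
  rw [abs_mul, hu, mul_one, Nat.abs_cast]
  congr 1
  unfold M
  rw [← Fintype.card_subtype, ← Nat.card_eq_fintype_card]
  refine Nat.card_congr ?_
  exact
    { toFun := fun τ => ⟨τ.1.trans e, fun x => τ.2 x⟩
      invFun := fun f => ⟨f.1.trans e.symm, fun x => by simpa using f.2 x⟩
      left_inv := fun τ => by ext x; simp
      right_inv := fun f => by ext x; simp }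

end Pool.Agent.H43.Benzel
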